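import Pool.Agent.H48.BN.Main

/-!
# Exponents `n ≡ 2 (mod 4)` with `2 n + 3` prime

For a primitive solution of `x ^ n = y ^ n + z ^ (n + 1)`, either `z` is odd, `2 n + 3` divides
`x y` and `x ^ 2 - y ^ 2` is prime to `n`; or `z` is even and all prime factors of `n (2 n + 3)`
divide one of `x - y`, `x + y` (hence divide `z`).
-/

namespace Pool.Agent.Results.MP_c98c49_nt.Dichotomy

theorem result :
    ∀ n : ℕ, 2 < n → n % 4 = 2 → (2 * n + 3).Prime →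
      ∀ x y z : ℕ, 0 < x → 0 < y → 0 < z →
        x ^ n = y ^ n + z ^ (n + 1) → Nat.gcd (Nat.gcd x y) z = 1 →
        (Odd z ∧ (2 * n + 3) ∣ x * y ∧ Nat.Coprime (x ^ 2 - y ^ 2) n) ∨
          (Even z ∧ ((∀ p : ℕ, p.Prime → p ∣ n * (2 * n + 3) → p ∣ x - y) ∨
            (∀ p : ℕ, p.Prime → p ∣ n * (2 * n + 3) → p ∣ x + y))) := by
  intro n hn h4 hl x y z _ hy hz h hg
  obtain ⟨m, rfl⟩ : ∃ m, n = 2 * m := ⟨n / 2, by omega⟩
  have hm : Odd m := Nat.odd_iff.2 (by omega)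
  have e : 2 * (2 * m) + 3 = 4 * m + 3 := by ring
  rw [e] at hl ⊢
  exact Pool.Agent.H48.BN.dichotomy hm (by omega) hl hy hz h hg

end Pool.Agent.Results.MP_c98c49_nt.Dichotomy
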