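import Pool.Agent.H48.BN.FirstCaseK

/-!
# The first case for exponents `n ≡ 2 (mod 4)` with an auxiliary prime

Let `ℓ = 2 k d + 1` be a prime with `d ∣ n + 1`, and suppose that `k = 1` and `ℓ > 7`, or that
`72 ^ k < ℓ`; suppose also that `(n / 2) ^ (2 k)` is not `1` modulo `ℓ`.  A primitive solution of
`x ^ n = y ^ n + z ^ (n + 1)` with `x ^ 2 - y ^ 2` prime to `n / 2` has `z` odd and `ℓ ∣ x y`.
-/

namespace Pool.Agent.Results.MP_c98c49_nt.FirstCase

theorem result :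
    ∀ n : ℕ, 2 < n → n % 4 = 2 →
      ∀ k d : ℕ, 0 < k → d ∣ n + 1 → (2 * k * d + 1).Prime →
        ((k = 1 ∧ 7 < 2 * k * d + 1) ∨ 72 ^ k < 2 * k * d + 1) →
        ¬ (2 * k * d + 1) ∣ (n / 2) ^ (2 * k) - 1 →
        ∀ x y z : ℕ, 0 < x → 0 < y → 0 < z →
          x ^ n = y ^ n + z ^ (n + 1) → Nat.gcd (Nat.gcd x y) z = 1 →
          Nat.Coprime (x ^ 2 - y ^ 2) (n / 2) → Odd z ∧ (2 * k * d + 1) ∣ x * y := by
  intro n hn h4 k d hk hd hl hbig h1 x y z _ hy hz h hg hc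
  obtain ⟨m, rfl⟩ : ∃ m, n = 2 * m := ⟨n / 2, by omega⟩
  have hm : Odd m := Nat.odd_iff.2 (by omega)
  have hm2 : 2 * m / 2 = m := by omega
  rw [hm2] at h1 hc
  have hd0 : 0 < d := by
    rcases Nat.eq_zero_or_pos d with h0 | h0
    · rw [h0] at hd
      have := Nat.eq_zero_of_zero_dvd hd
      omega
    · exact h0
  have h2l : 2 < 2 * k * d + 1 := by
    rcases hbig with ⟨-, h⟩ | h
    · omega
    · have : 72 ^ 1 ≤ 72 ^ k := Nat.pow_le_pow_right (by norm_num) hk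
      omega
  refine Pool.Agent.H48.BN.first_caseK (d := d) hl hk ?_ rfl h2l hd hm ?_ hy hz h hg hc
  · intro hfact
    rcases hbig with ⟨hk1, h7⟩ | h
    · subst hk1
      have hdo : Odd d := by
        apply Odd.of_dvd_nat _ hd
        exact ⟨m, rfl⟩
      obtain ⟨e, he⟩ := hdo
      exact Pool.Agent.H48.BN.noRel_one h7 (by omega)
    · exact Pool.Agent.H48.BN.noRel_of_large hk hd0 rfl h
  · intro h3
    apply h1
    have h1m : 1 ≤ m ^ (2 * k) := Nat.one_le_pow _ _ (by omega)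
    have : ((m ^ (2 * k) - 1 : ℕ) : ℤ) = (m : ℤ) ^ (2 * k) - 1 := by
      rw [Nat.cast_sub h1m]; push_cast; ring
    rw [← this] at h3
    exact_mod_cast h3

end Pool.Agent.Results.MP_c98c49_nt.FirstCase
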