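import Pool.Agent.H27.BN.SumRes
import Pool.Agent.H48.BN.Residue

/-!
# Power residues and Wieferich type conditions at the prime factors of `n + 1`

`l`, `l'` are the largest divisors of `n / 2` all of whose prime factors divide `u`, respectively `v`.
-/

namespace Pool.Agent.Results.MP_c98c49_nt.PowerResidues

open Pool.Agent.H27.BN

theorem result :
    ∀ n : ℕ, 2 < n → n % 4 = 2 →
      ∀ x y z : ℕ, 0 < x → 0 < y → 0 < z →
        x ^ n = y ^ n + z ^ (n + 1) → Nat.gcd (Nat.gcd x y) z = 1 →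
        -- modulo `x y`, for even `z`
        (Even z →
          (∃ t : ℕ, t ^ (n + 1) ≡ 2 [MOD (x * y) ^ (n / 2)]) ∧
            ∀ q e : ℕ, q.Prime → q ^ e ∣ n + 1 → q ∣ x * y → 2 ^ (q - 1) ≡ 1 [MOD q ^ (e + 1)]) ∧
        -- modulo `u = x ± y`
        ∀ u v : ℕ, (u = x + y ∧ v = x - y) ∨ (u = x - y ∧ v = x + y) →
        ∀ l l' : ℕ,
          l ∣ n / 2 → Nat.Coprime (n / 2 / l) u → (∀ p : ℕ, p.Prime → p ∣ l → p ∣ u) →
          l' ∣ n / 2 → Nat.Coprime (n / 2 / l') v → (∀ p : ℕ, p.Prime → p ∣ l' → p ∣ v) →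
        ∀ c : ℕ, (Odd z ∧ c = 3) ∨ (Even z ∧ ¬ 4 ∣ u ∧ c = 6) ∨ (4 ∣ u ∧ c = 0) →
          (∃ t : ℕ, l * t ^ (n + 1) ≡ n / 2 * l' [MOD u ^ 2]) ∧
          (∀ w : ℕ, Odd w → w ∣ u → ∃ t : ℕ, t ^ (n + 1) ≡ 2 ^ c * l' [MOD w ^ 2]) ∧
          (∀ q e : ℕ, q.Prime → 1 ≤ e → q ^ e ∣ n + 1 → q ∣ u →
            (2 ^ (c + 1) * l) ^ (q - 1) ≡ n + 2 [MOD q ^ (e + 1)] ∧
              (2 ^ c * l') ^ (q - 1) ≡ 1 [MOD q ^ (e + 1)]) ∧
          (l = 1 → l' = 1 ∨ l' = n / 2 → c ≠ 0 →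
            ∀ q : ℕ, q.Prime → q ∣ n + 1 → q ∣ u → q = 3 ∧ n % 9 = 2) := by
  intro n hn h4 x y z _ hy hz h hg
  obtain ⟨m, rfl⟩ : ∃ m, n = 2 * m := ⟨n / 2, by omega⟩
  have hm2 : 2 * m / 2 = m := by omega
  rw [hm2]
  refine ⟨fun hze => ⟨Pool.Agent.H48.BN.two_residue (by omega) hz hg hze h,
    fun q e hq hqe hqxy => ?_⟩, ?_⟩
  · have h1 := Pool.Agent.H48.BN.wieferich (by omega) hz hg hze h hq hqe hqxy
    exact ((Nat.modEq_iff_dvd' Nat.one_le_two_pow).2 h1).symm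
  intro u v huv l l' hl hlu hlp hl' hlv hlp' c hc
  obtain ⟨j, hj⟩ : ∃ j, m = 2 * j + 1 := ⟨m / 2, by omega⟩
  obtain ⟨h1, h2, h3⟩ := sum_residue (N := 2 * m + 1) (j := j) (by omega) hj (by omega) hy hz h hg
    huv (Nat.div_mul_cancel hl).symm hlu hlp (Nat.div_mul_cancel hl').symm hlv hlp' hc
  refine ⟨h1, h2, h3, ?_⟩
  intro hl1 hl'1 hc0 q hq hqN hqu
  subst hl1
  have hc36 : c = 3 ∨ c = 6 := by omega
  obtain ⟨e, he⟩ : ∃ e, e = (2 * m + 1).factorization q := ⟨_, rfl⟩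
  have he1 : 1 ≤ e := by
    rw [he]
    exact (hq.dvd_iff_one_le_factorization (by omega)).1 hqN
  have hqe : q ^ e ∣ 2 * m + 1 := by rw [he]; exact Nat.ordProj_dvd _ _
  have hmax : ¬ q ^ (e + 1) ∣ 2 * m + 1 := by
    rw [he]
    exact Nat.pow_succ_factorization_not_dvd (by omega) hq
  obtain ⟨h5, h6⟩ := h3 q e hq he1 hqe hqu
  obtain ⟨h7, h8⟩ := three_of hq he1 rfl hqe hmax hc36 h5 h6 hl'1
  exact ⟨h7, by omega⟩

end Pool.Agent.Results.MP_c98c49_nt.PowerResidues
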