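import Pool.Agent.H48.BN.PrimeFactorMain
import Pool.Agent.H27.BN.PrimePow
import Pool.Agent.H27.BN.OddZ

/-!
# Prime factors of the members of a primitive solution

A prime `r` is called special if `gcd (r - 1, n + 1) > 1`.
-/

namespace Pool.Agent.Results.MP_c98c49_nt.PrimeFactors

open Pool.Agent.H27.BN

theorem result :
    ∀ n : ℕ, 10 ≤ n → n % 4 = 2 →
      ∀ x y z : ℕ, 0 < x → 0 < y → 0 < z →
        x ^ n = y ^ n + z ^ (n + 1) → Nat.gcd (Nat.gcd x y) z = 1 →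
        -- special prime factors of `x + y` or `x - y`
        (∀ u v : ℕ, (u = x + y ∧ v = x - y) ∨ (u = x - y ∧ v = x + y) →
          (∀ p : ℕ, p.Prime → p ∣ n / 2 → p ∣ u) ∨ (4 ∣ u ∧ Nat.Coprime v (n / 2)) →
          (∃ r : ℕ, r.Prime ∧ r ∣ u ∧ 1 < Nat.gcd (r - 1) (n + 1)) ∧
          ∀ u₁ D : ℕ, u = u₁ * D →
            (∀ r : ℕ, r.Prime → r ∣ u₁ → Nat.gcd (r - 1) (n + 1) = 1) →
            (x + y) ^ 3 ≤ 2 ^ (n - 1) * (n * (n + 1)) ^ 2 * D ^ 4) ∧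
        -- `n / 2` a prime power, `z` not coprime to `n`
        (IsPrimePow (n / 2) → 1 < Nat.gcd z n →
          ∃ r : ℕ, r.Prime ∧ r ∣ z ∧ 1 < Nat.gcd (r - 1) (n + 1)) ∧
        -- odd `z`: special prime factors of `x` and `y`
        (Odd z → ∀ w : ℕ, w = x ∨ w = y →
          (∃ r : ℕ, r.Prime ∧ r ∣ w ∧ 1 < Nat.gcd (r - 1) (n + 1)) ∧
          ∀ d : ℕ, d ∣ w → (∀ r : ℕ, r.Prime → r ∣ d → Nat.gcd (r - 1) (n + 1) = 1) →
            d ^ (n / 2 * (n + 1)) ≤ (2 * (n + 1)) ^ (n + 1) * w ^ (n / 2)) ∧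
        -- odd `z`: prime factors of `x` and `y` tied to `n / 2`
        (Odd z →
          (Nat.Coprime x (n + 1) →
            ∃ p : ℕ, p.Prime ∧ p ∣ y ∧ 1 < Nat.gcd (p * (p - 1)) (n / 2)) ∧
          (Nat.Coprime y (n + 1) →
            ∃ p : ℕ, p.Prime ∧ p ∣ x ∧ 1 < Nat.gcd (p * (p - 1)) (n / 2))) := by
  intro n hn h4 x y z _ hy hz h hg
  obtain ⟨m, rfl⟩ : ∃ m, n = 2 * m := ⟨n / 2, by omega⟩
  have hm : Odd m := Nat.odd_iff.2 (by omega)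
  have hm2 : 2 * m / 2 = m := by omega
  rw [hm2]
  obtain ⟨j, hj⟩ := hm
  have hN : 2 * m + 1 = 4 * j + 3 := by omega
  refine ⟨fun u v huv hr => ?_, fun hpp hzn => ?_, fun hzo w hw => ?_, fun hzo => ?_⟩
  · obtain ⟨h1, h2⟩ := main_side (by omega) hj hN hy hz h hg huv hr
    refine ⟨exists_special (by omega) h2, ?_⟩
    intro u₁ D hu hf
    have h3 := h1 u₁ D hu hf
    have e : 2 ^ (2 * m - 1) = 2 * (4 ^ j) ^ 2 := by
      have e4 : (4 : ℕ) ^ j = 2 ^ (2 * j) := by rw [pow_mul]; norm_num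
      rw [e4, ← pow_mul, show 2 * m - 1 = 2 * j * 2 + 1 by omega, pow_succ, mul_comm]
    rw [e]
    calc (x + y) ^ 3 ≤ 8 * ((2 * m + 1) * (m * 4 ^ j * D ^ 2)) ^ 2 := h3
      _ = 2 * (4 ^ j) ^ 2 * (2 * m * (2 * m + 1)) ^ 2 * D ^ 4 := by ring
  · exact exists_special (by omega) (main_pp (by omega) hj hN hy hz h hg hpp hzn)
  · exact ⟨exists_special (by omega) (odd_special (by omega) rfl hy hz h hg hzo hw),
      fun d hd hf => odd_bound (by omega) ⟨m, rfl⟩ hy hz h hg hzo hw hd hf⟩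
  · have key : ∀ p : ℕ, ¬ Nat.Coprime (p * (p - 1)) m → 1 < Nat.gcd (p * (p - 1)) m := by
      intro p hp
      have h0 : 0 < Nat.gcd (p * (p - 1)) m := Nat.gcd_pos_of_pos_right _ (by omega)
      have h1 : Nat.gcd (p * (p - 1)) m ≠ 1 := fun h => hp h
      omega
    refine ⟨fun hx => ?_, fun hyN => ?_⟩
    · obtain ⟨p, hp, hpy, hpc⟩ :=
        Pool.Agent.H48.BN.factor_y ⟨j, hj⟩ (by omega) hy hg hzo h hx
      exact ⟨p, hp, hpy, key p hpc⟩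
    · obtain ⟨p, hp, hpx, hpc⟩ :=
        Pool.Agent.H48.BN.factor_x ⟨j, hj⟩ (by omega) hy hg hzo h hyN
      exact ⟨p, hp, hpx, key p hpc⟩

end Pool.Agent.Results.MP_c98c49_nt.PrimeFactors
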